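import Pool.Agent.helper47.SC.Spec

/-! # MP_0015b7: row SHR (properties of the shear) -/

open scoped Topology ContDiff
open Set Filter

namespace Pool.Agent.SC

theorem SHR : SHR_stmt := by
  intro h₁ h₂
  refine ⟨?_, ?_, ?_⟩
  · rintro ⟨x, u, a, b⟩
    simp [Psi, Phi]
  · rintro ⟨x, u, a, b⟩
    simp [Psi, Phi]
  · intro X hX c1 c2
    have hp : ContDiff ℂ ∞ (fun q : C4 => ((q.1, q.2.1) : C2)) := by fun_prop
    have d1 : ContDiffOn ℂ ∞ (fun q : C4 => h₁ (q.1, q.2.1)) {q : C4 | (q.1, q.2.1) ∈ X} :=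
      c1.comp hp.contDiffOn (fun q hq => hq)
    have d2 : ContDiffOn ℂ ∞ (fun q : C4 => h₂ (q.1, q.2.1)) {q : C4 | (q.1, q.2.1) ∈ X} :=
      c2.comp hp.contDiffOn (fun q hq => hq)
    refine ⟨hX.preimage hp.continuous, ?_, ?_⟩
    · unfold Phi
      refine ContDiffOn.prodMk (by fun_prop) (ContDiffOn.prodMk (by fun_prop)
        (ContDiffOn.prodMk ?_ ?_))
      · exact ContDiffOn.add (by fun_prop) d1
      · exact ContDiffOn.add (by fun_prop) d2
    · unfold Psi
      refine ContDiffOn.prodMk (by fun_prop) (ContDiffOn.prodMk (by fun_prop)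
        (ContDiffOn.prodMk ?_ ?_))
      · exact ContDiffOn.sub (by fun_prop) d1
      · exact ContDiffOn.sub (by fun_prop) d2

end Pool.Agent.SC
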