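import Pool.Agent.helper83.SC.Stmt

/-! Module UP: the upper bound for the support, in all dimensions. -/

open scoped Pointwise ContDiff
open MeasureTheory Set Filter Topology

namespace Pool.Agent.helper83.SC

lemma UP_emb_cont {m : ℕ} (b : OrthonormalBasis (Fin (m + 1)) ℝ (E (m + 1))) :
    Continuous (emb b) := by
  unfold emb; fun_prop

lemma UP_emb_inner {m : ℕ} (b : OrthonormalBasis (Fin (m + 1)) ℝ (E (m + 1))) (y : E m) :
    inner ℝ (b (Fin.last m)) (emb b y) = 1 := by
  unfold emb
  rw [inner_add_right, inner_sum]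
  simp only [inner_smul_right, OrthonormalBasis.inner_eq_ite]
  have h : ∀ i : Fin m, Fin.last m ≠ i.castSucc := fun i => (Fin.castSucc_lt_last i).ne'
  simp [h]

lemma UP_emb_ne {m : ℕ} (b : OrthonormalBasis (Fin (m + 1)) ℝ (E (m + 1))) (y : E m) :
    emb b y ≠ 0 := by
  intro h
  have := UP_emb_inner b y
  rw [h, inner_zero_right] at this
  exact one_ne_zero this.symm

lemma UP_emb_zero {m : ℕ} (b : OrthonormalBasis (Fin (m + 1)) ℝ (E (m + 1))) :
    emb b 0 = b (Fin.last m) := by
  unfold emb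
  simp

/-- the density -/
noncomputable def UPρ {m : ℕ} (b : OrthonormalBasis (Fin (m + 1)) ℝ (E (m + 1)))
    (v : E (m + 1)) : ENNReal :=
  ENNReal.ofReal (coord b v).2

/-- the central projection -/
noncomputable def UPπ {m : ℕ} (b : OrthonormalBasis (Fin (m + 1)) ℝ (E (m + 1)))
    (v : E (m + 1)) : E m := (coord b v).2⁻¹ • (coord b v).1

lemma UP_coord1_cont {m : ℕ} (b : OrthonormalBasis (Fin (m + 1)) ℝ (E (m + 1))) :
    Continuous (fun v => (coord b v).1) := by
  unfold coord
  simp only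
  refine (PiLp.continuous_toLp 2 _).comp ?_
  fun_prop

lemma UP_coord2_cont {m : ℕ} (b : OrthonormalBasis (Fin (m + 1)) ℝ (E (m + 1))) :
    Continuous (fun v => (coord b v).2) := by
  unfold coord
  simp only
  fun_prop

lemma UPρ_meas {m : ℕ} (b : OrthonormalBasis (Fin (m + 1)) ℝ (E (m + 1))) :
    Measurable (UPρ b) :=
  ENNReal.measurable_ofReal.comp (UP_coord2_cont b).measurable

lemma UPπ_meas {m : ℕ} (b : OrthonormalBasis (Fin (m + 1)) ℝ (E (m + 1))) :
    Measurable (UPπ b) :=
  (UP_coord2_cont b).measurable.inv.smul (UP_coord1_cont b).measurable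

/-- the measure in the chart -/
noncomputable def UPν {m : ℕ} (b : OrthonormalBasis (Fin (m + 1)) ℝ (E (m + 1)))
    (S : Measure (E (m + 1))) : Measure (E m) :=
  (S.withDensity (UPρ b)).map (UPπ b)

lemma UPν_finite {m : ℕ} (b : OrthonormalBasis (Fin (m + 1)) ℝ (E (m + 1)))
    {S : Measure (E (m + 1))} [IsFiniteMeasure S]
    (hS : S (Metric.sphere (0 : E (m + 1)) 1)ᶜ = 0) : IsFiniteMeasure (UPν b S) := by
  have h : IsFiniteMeasure (S.withDensity (UPρ b)) := by
    apply isFiniteMeasure_withDensity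
    have h1 : ∫⁻ v, UPρ b v ∂S ≤ ∫⁻ _, 1 ∂S := by
      apply lintegral_mono_ae
      have h2 : ∀ᵐ v ∂S, v ∈ Metric.sphere (0 : E (m + 1)) 1 := by
        rw [ae_iff]; exact hS
      filter_upwards [h2] with v hv
      unfold UPρ coord
      rw [ENNReal.ofReal_le_one]
      rw [mem_sphere_zero_iff_norm] at hv
      have := real_inner_le_norm (b (Fin.last m)) v
      rw [hv, b.norm_eq_one] at this
      linarith
    refine ne_of_lt (lt_of_le_of_lt h1 ?_)
    rw [lintegral_one]
    exact measure_lt_top S _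
  unfold UPν
  exact Measure.isFiniteMeasure_map _ _

lemma UP_integral {m : ℕ} (b : OrthonormalBasis (Fin (m + 1)) ℝ (E (m + 1)))
    {S : Measure (E (m + 1))} [IsFiniteMeasure S]
    {φ : E m → ℝ} (hφ : Test φ) : ∫ x, φ x ∂(UPν b S) = ∫ v, lift b φ v ∂S := by
  unfold UPν
  rw [integral_map (UPπ_meas b).aemeasurable hφ.1.continuous.aestronglyMeasurable]
  rw [integral_withDensity_eq_integral_toReal_smul (UPρ_meas b)
    (Filter.Eventually.of_forall fun v => ENNReal.ofReal_lt_top)]
  apply integral_congr_ae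
  filter_upwards with v
  unfold UPρ UPπ lift tilde
  simp only [smul_eq_mul]
  split_ifs with h
  · rw [ENNReal.toReal_ofReal h.le]
  · rw [ENNReal.ofReal_of_nonpos (not_lt.1 h)]
    simp

theorem upper_of (h1 : mem_extreme_chart_stmt) (h2 : core_upper_stmt) (h3 : local_identity_stmt)
    (h4 : chart_CV_stmt) (h5 : exists_basis_stmt) : upper_stmt := by
  intro m hm C hC S hS u hu U hU huU hUE
  have hu1 : ‖u‖ = 1 := mem_sphere_zero_iff_norm.1 hu
  obtain ⟨b, hb⟩ := h5 hu
  have := hS.1
  have hfin := UPν_finite b hS.2.1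
  have hv0 : emb b 0 = u := by rw [UP_emb_zero, hb]
  have hcont : ContinuousAt (fun y => ‖emb b y‖⁻¹ • emb b y) 0 := by
    change ContinuousAt ((fun y => ‖emb b y‖⁻¹) • (fun y => emb b y)) 0
    apply ContinuousAt.smul
    · apply ContinuousAt.inv₀
      · exact (UP_emb_cont b).norm.continuousAt
      · exact (norm_pos_iff.2 (UP_emb_ne b 0)).ne'
    · exact (UP_emb_cont b).continuousAt
  have hmem : (fun y => ‖emb b y‖⁻¹ • emb b y) ⁻¹' U ∈ 𝓝 (0 : E m) := by
    apply hcont
    apply hU.mem_nhds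
    simp only
    rw [hv0, hu1, inv_one, one_smul]
    exact huU
  obtain ⟨r, hr, hball⟩ := Metric.mem_nhds_iff.1 hmem
  have hnull : UPν b S (Metric.ball (0 : E m) r) = 0 := by
    refine h2 (F := fun j => chart b (C j)) (fun j => h4 b (hC j)) (UPν b S) ?_ ?_
    · intro φ hφ
      rw [UP_integral b hφ]
      exact h3 hm b hC hS hφ
    · intro y hy
      have hy' := hUE _ (hball hy)
      rw [h1 b hC y] at hy'
      push Not at hy'
      obtain ⟨I, W, hIW, hlt⟩ := hy'
      exact ⟨I, W, hIW, by omega⟩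
  unfold UPν at hnull
  rw [Measure.map_apply (UPπ_meas b) Metric.isOpen_ball.measurableSet,
    withDensity_apply_eq_zero (UPρ_meas b)] at hnull
  refine ⟨{v | 0 < (coord b v).2 ∧ ‖(coord b v).1‖ < r * (coord b v).2}, ?_, ?_, ?_⟩
  · apply IsOpen.and
    · exact isOpen_lt continuous_const (UP_coord2_cont b)
    · exact isOpen_lt (UP_coord1_cont b).norm (continuous_const.mul (UP_coord2_cont b))
  · rw [mem_ofPred_eq, ← hb]
    have e2 : (coord b (b (Fin.last m))).2 = 1 := by
      unfold coord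
      simp
    have e1 : (coord b (b (Fin.last m))).1 = 0 := by
      unfold coord
      ext i
      have h : i.castSucc ≠ Fin.last m := (Fin.castSucc_lt_last i).ne
      simp [h]
    rw [e1, e2, norm_zero, mul_one]
    exact ⟨one_pos, hr⟩
  · refine measure_mono_null ?_ hnull
    rintro v ⟨h1, h2⟩
    constructor
    · rw [mem_ofPred_eq]
      unfold UPρ
      exact (ENNReal.ofReal_pos.2 h1).ne'
    · rw [mem_preimage, mem_ball_zero_iff]
      unfold UPπ
      rw [norm_smul, norm_inv, Real.norm_eq_abs, abs_of_pos h1, inv_mul_lt_iff₀ h1, mul_comm]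
      exact h2

end Pool.Agent.helper83.SC
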