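import Pool.Agent.helper83.SC.Stmt

/-! Module CH2: support functions, charts. -/

open scoped Pointwise ContDiff
open MeasureTheory Set Filter Topology

namespace Pool.Agent.helper83.SC

theorem CH2_bdd {n : ℕ} {K : Set (E n)} (hK : IsBody K) (u : E n) :
    BddAbove ((fun x => inner ℝ x u) '' K) :=
  (hK.1.image (by fun_prop)).bddAbove

theorem CH2_le {n : ℕ} {K : Set (E n)} (hK : IsBody K) {x : E n} (hx : x ∈ K) (u : E n) :
    inner ℝ x u ≤ hE K u :=
  le_csSup (CH2_bdd hK u) ⟨x, hx, rfl⟩

theorem CH2_exists {n : ℕ} {K : Set (E n)} (hK : IsBody K) (u : E n) :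
    ∃ x ∈ K, hE K u = inner ℝ x u := by
  obtain ⟨x, hx, h⟩ := (hK.1.image (f := fun x => inner ℝ x u) (by fun_prop)).sSup_mem
    (hK.2.2.image _)
  exact ⟨x, hx, h.symm⟩

theorem CH2_hE_le {n : ℕ} {K : Set (E n)} (hK : IsBody K) {u : E n} {c : ℝ}
    (h : ∀ x ∈ K, inner ℝ x u ≤ c) : hE K u ≤ c := by
  obtain ⟨x, hx, hxu⟩ := CH2_exists hK u
  rw [hxu]
  exact h x hx

theorem hE_facts_of : hE_facts_stmt := by
  intro n K L hK hL
  have hKL : IsBody (K + L) := ⟨hK.1.add hL.1, hK.2.1.add hL.2.1, hK.2.2.add hL.2.2⟩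
  refine ⟨?_, ?_, ?_, ?_, hKL⟩
  · obtain ⟨R, hR⟩ := hK.1.isBounded.exists_norm_le
    refine ⟨Real.toNNReal R, LipschitzWith.of_le_add_mul _ fun u v => ?_⟩
    apply CH2_hE_le hK
    intro x hx
    have hR0 : 0 ≤ R := (norm_nonneg x).trans (hR x hx)
    rw [Real.coe_toNNReal R hR0]
    have h1 : inner ℝ x u = inner ℝ x v + inner ℝ x (u - v) := by
      rw [← inner_add_right]
      congr 1
      abel
    rw [h1]
    refine add_le_add (CH2_le hK hx v) ?_
    calc inner ℝ x (u - v) ≤ ‖x‖ * ‖u - v‖ := real_inner_le_norm _ _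
      _ ≤ R * dist u v := by
        rw [dist_eq_norm]
        exact mul_le_mul_of_nonneg_right (hR x hx) (norm_nonneg _)
  · refine ⟨convex_univ, fun u _ v _ s t hs ht _ => ?_⟩
    apply CH2_hE_le hK
    intro x hx
    rw [inner_add_right, inner_smul_right, inner_smul_right]
    exact add_le_add (mul_le_mul_of_nonneg_left (CH2_le hK hx u) hs)
      (mul_le_mul_of_nonneg_left (CH2_le hK hx v) ht)
  · intro t ht v
    apply le_antisymm
    · apply CH2_hE_le hK
      intro x hx
      rw [inner_smul_right]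
      exact mul_le_mul_of_nonneg_left (CH2_le hK hx v) ht
    · obtain ⟨x, hx, hxv⟩ := CH2_exists hK v
      rw [hxv, ← inner_smul_right]
      exact CH2_le hK hx _
  · intro v
    apply le_antisymm
    · apply CH2_hE_le hKL
      intro z hz
      obtain ⟨x, hx, y, hy, rfl⟩ := Set.mem_add.1 hz
      rw [inner_add_left]
      exact add_le_add (CH2_le hK hx v) (CH2_le hL hy v)
    · obtain ⟨x, hx, hxv⟩ := CH2_exists hK v
      obtain ⟨y, hy, hyv⟩ := CH2_exists hL v
      rw [hxv, hyv, ← inner_add_left]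
      exact CH2_le hKL (Set.add_mem_add hx hy) v

theorem isBody_sum_of : isBody_sum_stmt := by
  intro n ι s C hC
  classical
  induction s using Finset.induction_on with
  | empty =>
    simp only [Finset.sum_empty]
    refine ⟨⟨isCompact_singleton, convex_singleton 0, singleton_nonempty 0⟩, fun v => ?_⟩
    unfold hE
    have h0 : (0 : Set (E n)) = {0} := rfl
    rw [h0, image_singleton, inner_zero_left, csSup_singleton]
  | insert i s hi ih =>
    have h := hE_facts_of (hC i) ih.1
    rw [Finset.sum_insert hi]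
    refine ⟨h.2.2.2.2, fun v => ?_⟩
    rw [h.2.2.2.1 v, ih.2 v, Finset.sum_insert hi]

theorem chart_CV_of : chart_CV_stmt := by
  intro m b K hK
  have h := (hE_facts_of hK hK).2.1
  refine ⟨convex_univ, fun x _ y _ s t hs ht hst => ?_⟩
  have e : emb b (s • x + t • y) = s • emb b x + t • emb b y := by
    unfold emb
    have e1 : ∑ i : Fin m, (s • x + t • y) i • b i.castSucc
        = s • (∑ i : Fin m, x i • b i.castSucc) + t • (∑ i : Fin m, y i • b i.castSucc) := by
      rw [Finset.smul_sum, Finset.smul_sum, ← Finset.sum_add_distrib]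
      refine Finset.sum_congr rfl fun i _ => ?_
      simp only [PiLp.add_apply, PiLp.smul_apply, smul_eq_mul]
      rw [smul_smul, smul_smul, add_smul]
    rw [e1]
    have e2 : b (Fin.last m) = (s + t) • b (Fin.last m) := by rw [hst, one_smul]
    conv_lhs => rw [e2]
    module
  unfold chart
  rw [e]
  exact h.2 (mem_univ _) (mem_univ _) hs ht hst

theorem exists_basis_of : exists_basis_stmt := by
  intro m u hu
  have hu1 : ‖u‖ = 1 := mem_sphere_zero_iff_norm.1 hu
  have hfin : Module.finrank ℝ (E (m + 1)) = Fintype.card (Fin (m + 1)) := by simp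
  have horth : Orthonormal ℝ (({Fin.last m} : Set (Fin (m + 1))).domRestrict (fun _ => u)) := by
    constructor
    · intro i; exact hu1
    · intro i j hij
      exact absurd (Subsingleton.elim i j) hij
  obtain ⟨b, hb⟩ := horth.exists_orthonormalBasis_extension_of_card_eq hfin
  exact ⟨b, hb (Fin.last m) rfl⟩

end Pool.Agent.helper83.SC
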