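import Pool.Agent.helper83.SC.Stmt

/-! Module CU: the local upper bound. -/

open scoped Pointwise ContDiff
open MeasureTheory Set Filter Topology

namespace Pool.Agent.helper83.SC

lemma CU_CV_sum {m : ℕ} {ι : Type} (s : Finset ι) {F : ι → E m → ℝ} (hF : ∀ i, CV (F i)) :
    CV (fun x => ∑ i ∈ s, F i x) := by
  classical
  induction s using Finset.induction_on with
  | empty =>
    simp only [Finset.sum_empty]
    exact convexOn_const 0 convex_univ
  | insert i s hi ih =>
    have h : (fun x => ∑ j ∈ insert i s, F j x) = (F i) + (fun x => ∑ j ∈ s, F j x) := by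
      funext x
      rw [Finset.sum_insert hi]
      rfl
    rw [h]
    exact (hF i).add ih

theorem core_upper_of (h1 : flat_sum_stmt) (h2 : mem_piece_stmt) (h3 : null_piece_stmt) :
    core_upper_stmt := by
  intro m F hF ν _ hν U h
  have hsub : U ⊆ ⋃ (p : {q : Finset (Fin m) × Finset (Fin m) × ℕ // m + 1 ≤ q.2.1.card + q.1.card}),
      piece (fun x => ∑ i ∈ p.1.1, F i x) p.1.2.1 p.1.2.2 := by
    intro y hy
    obtain ⟨I, W, hIW, hle⟩ := h y hy
    obtain ⟨T, N, hT, hyN⟩ := h2 (CU_CV_sum I hF) W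
      (fun v hv => (h1 I hF y v).2 fun i hi => hIW v hv i hi)
    rw [mem_iUnion]
    exact ⟨⟨(I, T, N), by rw [hT]; exact hle⟩, hyN⟩
  refine measure_mono_null hsub ?_
  rw [measure_iUnion_null_iff]
  rintro ⟨⟨I, T, N⟩, hp⟩
  exact h3 hF ν hν I T N hp

end Pool.Agent.helper83.SC
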