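import Pool.Agent.helper82.SC.SpecA

/-!
# Project sp: (MP_7800de_pr), module EX: the corner joined to the source
-/

namespace Pool.Agent.helper82.SC

open Relation

theorem EX_zmod (a : ZMod 2) (h : a ≠ 1) : a = 0 := by
  revert h; revert a; decide

theorem EX_symm (D : Dom) (ψ : Dart → ZMod 2) {x y : Dart} (h : D.Cn ψ x y) : D.Cn ψ y x := by
  have hs : ∀ x y, D.Link ψ x y → D.Link ψ y x := by
    rintro x y ⟨h1, h2, h3⟩
    refine ⟨h2, h1, ?_⟩
    rcases h3 with ⟨h4, h5, h6⟩ | ⟨h4, h5⟩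
    · exact Or.inl ⟨h5 ▸ h4, h5.symm, h6.symm⟩
    · exact Or.inr ⟨h4.symm, by rw [h5, star_star]⟩
  induction h with
  | refl => exact ReflTransGen.refl
  | tail _ hbc ih => exact ReflTransGen.head (hs _ _ hbc) ih

theorem EX (hGM : GM_stmt) (hCO : CO_stmt) : EX_stmt := by
  intro D z hz ψ hψ
  obtain ⟨hfin, hcor, hout, hinj⟩ := hCO D
  obtain ⟨heven, hsym, hwall⟩ := hψ
  have hGM' := hGM {f | D.FU f} ψ hfin fun f hf => heven f hf
  have hsz : ψ (star z) = ψ z + 1 := by
    rw [hsym z, if_pos (Or.inl rfl)]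
  have hzp1 : ψ (zp ψ z) = 1 ∧ ψ (star (zp ψ z)) = 0 := by
    unfold zp
    by_cases h : ψ z = 1
    · rw [if_pos h, hsz, h]
      exact ⟨rfl, by decide⟩
    · rw [if_neg h, star_star, hsz, EX_zmod _ h]
      exact ⟨by decide, rfl⟩
  have hs : Inc {f | D.FU f} ψ (zp ψ z, false) := by
    refine ⟨hzp1.1, ?_, ?_⟩
    · show D.FU (zp ψ z).1 ∨ D.FU (star (zp ψ z)).1
      unfold zp
      split_ifs
      · exact Or.inl hz
      · rw [star_star]; exact Or.inr hz
    · exact hzp1.2
  have hc : ∀ m, Inc {f | D.FU f} ψ (star (D.a m), true) := by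
    intro m
    obtain ⟨h1, h2, h3, h4⟩ := hcor m
    refine ⟨?_, ?_, h2⟩
    · show ψ (star (D.a m)) = 1
      rw [hwall _ h2, h4]
    · show D.FU (star (D.a m)).1 ∨ D.FU (star (star (D.a m))).1
      rw [star_star]; exact Or.inr h1
  have hall : ∀ i : Dart × Bool, Inc {f | D.FU f} ψ i →
      i = (zp ψ z, false) ∨ ∃ m, i = (star (D.a m), true) := by
    rintro ⟨x, b⟩ ⟨h1, h2, h3⟩
    cases b with
    | true =>
      right
      have h3' : ¬ D.FU x.1 := h3
      have h2' : D.FU (star x).1 := h2.resolve_left h3'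
      obtain ⟨m, hm⟩ := hout x h3' h2' (by rw [← hwall x h3']; exact h1)
      exact ⟨m, by rw [hm]⟩
    | false =>
      left
      have h1' : ψ x = 1 := h1
      have h3' : ψ (star x) = 0 := h3
      have h4 := hsym x
      rw [h1', h3'] at h4
      have h5 : x = z ∨ x = star z := by
        by_contra hcon
        rw [if_neg hcon] at h4
        exact absurd h4 (by decide)
      have h6 : x = zp ψ z := by
        unfold zp
        rcases h5 with rfl | h5
        · rw [if_pos h1']
        · rw [if_neg, h5]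
          rw [h5, star_star] at h3'
          rw [h3']
          decide
      rw [h6]
  obtain ⟨i', ⟨hi1, hi2, hi3⟩, hiu⟩ := hGM' _ hs
  obtain ⟨j, hj⟩ : ∃ j, i' = (star (D.a j), true) := by
    rcases hall i' hi2 with h | h
    · exact absurd h hi1
    · exact h
  have hJj : D.Cn ψ (zp ψ z) (star (D.a j)) := by
    rw [hj] at hi3
    exact hi3
  have hJu : ∀ k, D.Cn ψ (zp ψ z) (star (D.a k)) → k = j := by
    intro k hk
    have := hiu (star (D.a k), true) ⟨by simp, hc k, hk⟩
    rw [hj] at this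
    have h2 := congrArg (fun i : Dart × Bool => star i.1) this
    simp only [star_star] at h2
    exact hinj h2
  have hk1 : ∀ k, k ≠ j → ¬ D.Cn ψ (star (D.a k)) (zp ψ z) := fun k hk h => hk (hJu k (EX_symm D ψ h))
  have hk2 : ∀ k, k ≠ j → ¬ D.Cn ψ (star (D.a k)) (star (D.a j)) := fun k hk h =>
    hk (hJu k (hJj.trans (EX_symm D ψ h)))
  refine ⟨j, hJj, hJu, ?_, fun k hk => ⟨hk2 k hk, hk1 k hk⟩⟩
  intro k l hk hl
  by_cases hkl : k = l
  · rw [hkl]; exact ReflTransGen.refl
  obtain ⟨i'', ⟨hi1', hi2', hi3'⟩, -⟩ := hGM' _ (hc k)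
  rcases hall i'' hi2' with h | ⟨m, h⟩
  · rw [h] at hi3'
    exact absurd hi3' (hk1 k hk)
  · rw [h] at hi3' hi1'
    have hmk : m ≠ k := by
      rintro rfl
      exact hi1' rfl
    have hmj : m ≠ j := by
      rintro rfl
      exact hk2 k hk hi3'
    have : m = l := by omega
    rw [← this]
    exact hi3'

end Pool.Agent.helper82.SC

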